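import Pool.Agent.Helper65.ET.Flux3
import Pool.Agent.Helper65.EH.Defs

set_option autoImplicit false

open MeasureTheory Metric Real Set

/-!
# The integrated flux identity with weight `y ^ k`
-/

namespace Pool.Agent.Helper73.EH.FLUX

open Pool.Agent.Helper65.ET (pt pt_re Per hh HH kap kap' KK hh_eq HH_eq hasDerivAt_pt_x
  hasDerivAt_pt_y hasDerivAt_kap hasDerivAt_KK kap_continuous kap'_continuous KK_continuous
  cont_comp)
open Pool.Agent.Helper65.EH

/-- `Im Z` -/
noncomputable def zi (k : ℝ) (F F1 : ℂ → ℂ) (x y : ℝ) : ℝ :=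
  pw k y * (2 * y * ((F (pt x y)).re * (F1 (pt x y)).im - (F (pt x y)).im * (F1 (pt x y)).re))

lemma zr_sq_add_zi_sq (k : ℝ) (F F1 : ℂ → ℂ) (x y : ℝ) :
    zr k F F1 x y ^ 2 + zi k F F1 x y ^ 2 = vv k F x y * qq k F F1 x y := by
  unfold zr zi vv qq
  ring

/-- `∂_y (κ(v) Re Z - K(v))` -/
noncomputable def dG (k : ℝ) (F F1 F2 : ℂ → ℂ) (x y : ℝ) : ℝ :=
  kap' (vv k F x y) * (zr k F F1 x y / y) * zr k F F1 x y +
    kap (vv k F x y) * (pw k y * (2 * y * ((F1 (pt x y)).re ^ 2 + (F (pt x y)).re *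
        (F2 (pt x y)).re + (F1 (pt x y)).im ^ 2 + (F (pt x y)).im * (F2 (pt x y)).im) +
      (2 + 4 * k) * ((F (pt x y)).re * (F1 (pt x y)).re + (F (pt x y)).im * (F1 (pt x y)).im)) +
      k ^ 2 * (pw k y * ((F (pt x y)).re ^ 2 + (F (pt x y)).im ^ 2)) / y) -
    kap (vv k F x y) * (zr k F F1 x y / y)

/-- `∂_x (κ(v) Im Z)` -/
noncomputable def dJ (k : ℝ) (F F1 F2 : ℂ → ℂ) (x y : ℝ) : ℝ :=
  kap' (vv k F x y) * (-(zi k F F1 x y) / y) * zi k F F1 x y +
    kap (vv k F x y) * (pw k y * (2 * y * (-(F1 (pt x y)).im ^ 2 + (F (pt x y)).re *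
        (F2 (pt x y)).re - (F1 (pt x y)).re ^ 2 + (F (pt x y)).im * (F2 (pt x y)).im)))

lemma flux_alg (k : ℝ) (F F1 F2 : ℂ → ℂ) (x y : ℝ) (hy : 0 < y) :
    y * (dG k F F1 F2 x y - dJ k F F1 F2 x y) = flux k F F1 x y := by
  unfold flux
  rw [hh_eq, HH_eq]
  have h := zr_sq_add_zi_sq k F F1 x y
  have hy' : y ≠ 0 := hy.ne'
  have e1 : y * (dG k F F1 F2 x y - dJ k F F1 F2 x y) =
      kap' (vv k F x y) * (zr k F F1 x y ^ 2 + zi k F F1 x y ^ 2) +
      kap (vv k F x y) * (pw k y * (4 * y ^ 2 * ((F1 (pt x y)).re ^ 2 + (F1 (pt x y)).im ^ 2) +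
      (2 + 4 * k) * y * ((F (pt x y)).re * (F1 (pt x y)).re +
        (F (pt x y)).im * (F1 (pt x y)).im)) +
      k ^ 2 * (pw k y * ((F (pt x y)).re ^ 2 + (F (pt x y)).im ^ 2)) - zr k F F1 x y) := by
    unfold dG dJ
    field_simp
    ring
  rw [e1, h]
  unfold zr vv qq
  ring

variable {k : ℝ} {F F1 F2 : ℂ → ℂ}

lemma hasDerivAt_pw {y : ℝ} (hy : 0 < y) : HasDerivAt (fun y => pw k y) (k * pw k y / y) y := by
  have h1 := Real.hasDerivAt_rpow_const (x := y) (p := k) (Or.inl hy.ne')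
  refine h1.congr_deriv ?_
  unfold pw
  rw [Real.rpow_sub_one hy.ne', mul_div_assoc]

lemma hasDerivAt_vv_y {x y : ℝ} (hy : 0 < y) (h1 : HasDerivAt F (F1 (pt x y)) (pt x y)) :
    HasDerivAt (fun y => vv k F x y) (zr k F F1 x y / y) y := by
  have hF := hasDerivAt_pt_y h1
  have hr := Pool.Agent.Helper65.ET.HasDerivAt.re' hF
  have hi := Pool.Agent.Helper65.ET.HasDerivAt.im' hF
  have hs := hasDerivAt_pw (k := k) hy
  have := hs.mul ((hr.fun_pow 2).add (hi.fun_pow 2))
  refine this.congr_deriv ?_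
  unfold zr
  simp only [Pi.add_apply]
  push_cast
  field_simp
  ring

lemma hasDerivAt_vv_x {x y : ℝ} (hy : 0 < y) (h1 : HasDerivAt F (F1 (pt x y)) (pt x y)) :
    HasDerivAt (fun x => vv k F x y) (-(zi k F F1 x y) / y) x := by
  have hF := hasDerivAt_pt_x h1
  have hr := Pool.Agent.Helper65.ET.HasDerivAt.re' hF
  have hi := Pool.Agent.Helper65.ET.HasDerivAt.im' hF
  have := ((hr.fun_pow 2).add (hi.fun_pow 2)).const_mul (pw k y)
  refine this.congr_deriv ?_
  unfold zi
  simp only [Complex.mul_re, Complex.mul_im, Complex.I_re, Complex.I_im]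
  field_simp
  ring

lemma hasDerivAt_zr_y {x y : ℝ} (hy : 0 < y) (h1 : HasDerivAt F (F1 (pt x y)) (pt x y))
    (h2 : HasDerivAt F1 (F2 (pt x y)) (pt x y)) :
    HasDerivAt (fun y => zr k F F1 x y)
      (pw k y * (2 * y * ((F1 (pt x y)).re ^ 2 + (F (pt x y)).re * (F2 (pt x y)).re +
        (F1 (pt x y)).im ^ 2 + (F (pt x y)).im * (F2 (pt x y)).im) +
      (2 + 4 * k) * ((F (pt x y)).re * (F1 (pt x y)).re + (F (pt x y)).im * (F1 (pt x y)).im)) +
      k ^ 2 * (pw k y * ((F (pt x y)).re ^ 2 + (F (pt x y)).im ^ 2)) / y) y := by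
  have hF := hasDerivAt_pt_y h1
  have hF1 := hasDerivAt_pt_y h2
  have hr := Pool.Agent.Helper65.ET.HasDerivAt.re' hF
  have hi := Pool.Agent.Helper65.ET.HasDerivAt.im' hF
  have hr1 := Pool.Agent.Helper65.ET.HasDerivAt.re' hF1
  have hi1 := Pool.Agent.Helper65.ET.HasDerivAt.im' hF1
  have hs := hasDerivAt_pw (k := k) hy
  have := hs.mul ((((hasDerivAt_id y).const_mul 2).mul ((hr.mul hr1).add (hi.mul hi1))).add
    (((hr.fun_pow 2).add (hi.fun_pow 2)).const_mul k))
  refine this.congr_deriv ?_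
  simp only [Pi.add_apply, Pi.mul_apply, id]
  push_cast
  field_simp
  ring

lemma hasDerivAt_zi_x {x y : ℝ} (h1 : HasDerivAt F (F1 (pt x y)) (pt x y))
    (h2 : HasDerivAt F1 (F2 (pt x y)) (pt x y)) :
    HasDerivAt (fun x => zi k F F1 x y)
      (pw k y * (2 * y * (-(F1 (pt x y)).im ^ 2 + (F (pt x y)).re * (F2 (pt x y)).re -
        (F1 (pt x y)).re ^ 2 + (F (pt x y)).im * (F2 (pt x y)).im))) x := by
  have hF := hasDerivAt_pt_x h1
  have hF1 := hasDerivAt_pt_x h2
  have hr := Pool.Agent.Helper65.ET.HasDerivAt.re' hF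
  have hi := Pool.Agent.Helper65.ET.HasDerivAt.im' hF
  have hr1 := Pool.Agent.Helper65.ET.HasDerivAt.re' hF1
  have hi1 := Pool.Agent.Helper65.ET.HasDerivAt.im' hF1
  have := (((hr.mul hi1).sub (hi.mul hr1)).const_mul (2 * y)).const_mul (pw k y)
  refine this.congr_deriv ?_
  simp only [Complex.mul_re, Complex.mul_im, Complex.I_re, Complex.I_im]
  ring

lemma hasDerivAt_G {x y : ℝ} (hy : 0 < y) (h1 : HasDerivAt F (F1 (pt x y)) (pt x y))
    (h2 : HasDerivAt F1 (F2 (pt x y)) (pt x y)) :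
    HasDerivAt (fun y => kap (vv k F x y) * zr k F F1 x y - KK (vv k F x y))
      (dG k F F1 F2 x y) y := by
  have hv := hasDerivAt_vv_y (k := k) hy h1
  have hz := hasDerivAt_zr_y (k := k) hy h1 h2
  have hk := (hasDerivAt_kap (vv k F x y)).comp y hv
  have hK := (hasDerivAt_KK (vv k F x y)).comp y hv
  exact ((hk.mul hz).sub hK).congr_deriv (by unfold dG; simp only [Function.comp])

lemma hasDerivAt_J {x y : ℝ} (hy : 0 < y) (h1 : HasDerivAt F (F1 (pt x y)) (pt x y))
    (h2 : HasDerivAt F1 (F2 (pt x y)) (pt x y)) :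
    HasDerivAt (fun x => kap (vv k F x y) * zi k F F1 x y) (dJ k F F1 F2 x y) x := by
  have hv := hasDerivAt_vv_x (k := k) hy h1
  have hz := hasDerivAt_zi_x (k := k) h1 h2
  have hk := (hasDerivAt_kap (vv k F x y)).comp x hv
  exact (hk.mul hz).congr_deriv (by unfold dJ; simp only [Function.comp])

section cont

variable {X : Type*} [TopologicalSpace X] {x y : X → ℝ}

lemma cont_pw (hk : 0 < k) (hy : Continuous y) : Continuous (fun t => pw k (y t)) :=
  hy.rpow_const (fun _ => Or.inr hk.le)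

lemma cont_vv (hk : 0 < k) (hF : ContinuousOn F {s : ℂ | 0 < s.re}) (hx : Continuous x)
    (hy : Continuous y) (hpos : ∀ t, 0 < y t) : Continuous (fun t => vv k F (x t) (y t)) := by
  have aux : ∀ (A : X → ℂ) (p : X → ℝ), Continuous A → Continuous p →
      Continuous (fun t => p t * ((A t).re ^ 2 + (A t).im ^ 2)) := by
    intro A p hA hp; fun_prop
  exact aux _ _ (cont_comp hF hx hy hpos) (cont_pw hk hy)

lemma cont_zr (hk : 0 < k) (h : Per F F1 F2) (hx : Continuous x) (hy : Continuous y)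
    (hpos : ∀ t, 0 < y t) : Continuous (fun t => zr k F F1 (x t) (y t)) := by
  have aux : ∀ (A B : X → ℂ) (p : X → ℝ), Continuous A → Continuous B → Continuous p →
      Continuous (fun t => p t * (2 * y t * ((A t).re * (B t).re + (A t).im * (B t).im) +
    k * ((A t).re ^ 2 + (A t).im ^ 2))) := by
    intro A B p hA hB hp; fun_prop
  exact aux _ _ _ (cont_comp h.c0 hx hy hpos) (cont_comp h.c1 hx hy hpos) (cont_pw hk hy)

lemma cont_zi (hk : 0 < k) (h : Per F F1 F2) (hx : Continuous x) (hy : Continuous y)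
    (hpos : ∀ t, 0 < y t) : Continuous (fun t => zi k F F1 (x t) (y t)) := by
  have aux : ∀ (A B : X → ℂ) (p : X → ℝ), Continuous A → Continuous B → Continuous p →
      Continuous (fun t => p t * (2 * y t * ((A t).re * (B t).im - (A t).im * (B t).re))) := by
    intro A B p hA hB hp; fun_prop
  exact aux _ _ _ (cont_comp h.c0 hx hy hpos) (cont_comp h.c1 hx hy hpos) (cont_pw hk hy)

lemma cont_dG (hk : 0 < k) (h : Per F F1 F2) (hx : Continuous x) (hy : Continuous y)
    (hpos : ∀ t, 0 < y t) : Continuous (fun t => dG k F F1 F2 (x t) (y t)) := by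
  have hv := cont_vv hk h.c0 hx hy hpos
  have hz := cont_zr hk h hx hy hpos
  have hk0 := kap_continuous.comp hv
  have hk' := kap'_continuous.comp hv
  have hp := cont_pw hk hy
  have hne : ∀ t, y t ≠ 0 := fun t => (hpos t).ne'
  have hzy : Continuous (fun t => zr k F F1 (x t) (y t) / y t) := hz.div hy hne
  have aux : ∀ (A B C : X → ℂ) (p κ κ' z zy : X → ℝ), Continuous A → Continuous B →
      Continuous C → Continuous p → Continuous κ → Continuous κ' → Continuous z → Continuous zy →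
      Continuous (fun t => κ' t * zy t * z t + κ t * (p t * (2 * y t * ((B t).re ^ 2 +
        (A t).re * (C t).re + (B t).im ^ 2 + (A t).im * (C t).im) +
      (2 + 4 * k) * ((A t).re * (B t).re + (A t).im * (B t).im)) +
      k ^ 2 * (p t * ((A t).re ^ 2 + (A t).im ^ 2)) / y t) - κ t * zy t) := by
    intro A B C p κ κ' z zy hA hB hC h0 h1 h2 h3 h4
    have h5 : Continuous (fun t => k ^ 2 * (p t * ((A t).re ^ 2 + (A t).im ^ 2)) / y t) :=
      Continuous.div (by fun_prop) (by fun_prop) hne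
    fun_prop
  exact aux _ _ _ _ _ _ _ _ (cont_comp h.c0 hx hy hpos) (cont_comp h.c1 hx hy hpos)
    (cont_comp h.c2 hx hy hpos) hp hk0 hk' hz hzy

lemma cont_dJ (hk : 0 < k) (h : Per F F1 F2) (hx : Continuous x) (hy : Continuous y)
    (hpos : ∀ t, 0 < y t) : Continuous (fun t => dJ k F F1 F2 (x t) (y t)) := by
  have hv := cont_vv hk h.c0 hx hy hpos
  have hz := cont_zi hk h hx hy hpos
  have hk0 := kap_continuous.comp hv
  have hk' := kap'_continuous.comp hv
  have hp := cont_pw hk hy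
  have hne : ∀ t, y t ≠ 0 := fun t => (hpos t).ne'
  have hzy : Continuous (fun t => -(zi k F F1 (x t) (y t)) / y t) := hz.neg.div hy hne
  have aux : ∀ (A B C : X → ℂ) (p κ κ' z zy : X → ℝ), Continuous A → Continuous B →
      Continuous C → Continuous p → Continuous κ → Continuous κ' → Continuous z → Continuous zy →
      Continuous (fun t => κ' t * zy t * z t + κ t * (p t * (2 * y t * (-(B t).im ^ 2 +
        (A t).re * (C t).re - (B t).re ^ 2 + (A t).im * (C t).im)))) := by
    intro A B C p κ κ' z zy hA hB hC h0 h1 h2 h3 h4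
    fun_prop
  exact aux _ _ _ _ _ _ _ _ (cont_comp h.c0 hx hy hpos) (cont_comp h.c1 hx hy hpos)
    (cont_comp h.c2 hx hy hpos) hp hk0 hk' hz hzy

lemma cont_GG (hk : 0 < k) (h : Per F F1 F2) (hx : Continuous x) (hy : Continuous y)
    (hpos : ∀ t, 0 < y t) : Continuous (fun t => GG k F F1 (x t) (y t)) := by
  have hv := cont_vv hk h.c0 hx hy hpos
  have hz := cont_zr hk h hx hy hpos
  exact ((kap_continuous.comp hv).mul hz).sub (KK_continuous.comp hv)

end cont

theorem main : S_FLUX := by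
  intro k hk F F1 F2 h a b
  have hcont1 : Continuous (fun z : ℝ × ℝ => exp (-z.1) * dG k F F1 F2 z.2 (exp (-z.1))) := by
    apply Continuous.mul (by fun_prop)
    exact cont_dG hk h continuous_snd (by fun_prop) (fun _ => exp_pos _)
  have hcont2 : ∀ τ : ℝ, Continuous (fun x : ℝ => dJ k F F1 F2 x (exp (-τ))) := fun τ =>
    cont_dJ hk h continuous_id continuous_const (fun _ => exp_pos _)
  have hcont3 : ∀ τ : ℝ, Continuous (fun x : ℝ => dG k F F1 F2 x (exp (-τ))) := fun τ =>
    cont_dG hk h continuous_id continuous_const (fun _ => exp_pos _)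
  have hcont2' : ∀ τ : ℝ, Continuous (fun x : ℝ => exp (-τ) * dJ k F F1 F2 x (exp (-τ))) :=
    fun τ => continuous_const.mul (hcont2 τ)
  have hcont3' : ∀ τ : ℝ, Continuous (fun x : ℝ => exp (-τ) * dG k F F1 F2 x (exp (-τ))) :=
    fun τ => continuous_const.mul (hcont3 τ)
  have hcontG : ∀ y : ℝ, 0 < y → Continuous (fun x : ℝ => GG k F F1 x y) := fun y hy =>
    cont_GG hk h continuous_id continuous_const (fun _ => hy)
  have step1 : ∀ τ : ℝ, ∫ x in (0 : ℝ)..2 * π, flux k F F1 x (exp (-τ)) =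
      ∫ x in (0 : ℝ)..2 * π, exp (-τ) * dG k F F1 F2 x (exp (-τ)) := by
    intro τ
    have e1 : ∀ x, flux k F F1 x (exp (-τ)) =
        exp (-τ) * dG k F F1 F2 x (exp (-τ)) - exp (-τ) * dJ k F F1 F2 x (exp (-τ)) := by
      intro x
      rw [← flux_alg k F F1 F2 x _ (exp_pos _)]; ring
    simp_rw [e1]
    rw [intervalIntegral.integral_sub ((hcont3' τ).intervalIntegrable _ _)
      ((hcont2' τ).intervalIntegrable _ _),
      intervalIntegral.integral_const_mul (exp (-τ)) (fun x => dJ k F F1 F2 x (exp (-τ)))]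
    have e2 : ∫ x in (0 : ℝ)..2 * π, dJ k F F1 F2 x (exp (-τ)) = 0 := by
      rw [intervalIntegral.integral_eq_sub_of_hasDerivAt
        (f := fun x => kap (vv k F x (exp (-τ))) * zi k F F1 x (exp (-τ)))
        (fun x _ => hasDerivAt_J (exp_pos _) (h.d1 _ (by rw [pt_re]; exact exp_pos _))
          (h.d2 _ (by rw [pt_re]; exact exp_pos _)))
        ((hcont2 τ).intervalIntegrable _ _)]
      have h0 := h.per0 0 (exp (-τ))
      have h1 := h.per1 0 (exp (-τ))
      rw [zero_add] at h0 h1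
      unfold vv zi
      rw [h0, h1, sub_self]
    rw [e2]; ring
  simp_rw [step1]
  rw [intervalIntegral_intervalIntegral_swap]
  · rw [← intervalIntegral.integral_sub ((hcontG _ (exp_pos _)).intervalIntegrable _ _)
      ((hcontG _ (exp_pos _)).intervalIntegrable _ _)]
    apply intervalIntegral.integral_congr
    intro x _
    simp only
    rw [intervalIntegral.integral_eq_sub_of_hasDerivAt
      (f := fun τ => -(GG k F F1 x (exp (-τ))))]
    · simp; ring
    · intro τ _
      have h1 : HasDerivAt (fun y => GG k F F1 x y) (dG k F F1 F2 x (exp (-τ))) (exp (-τ)) :=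
        hasDerivAt_G (x := x) (exp_pos (-τ)) (h.d1 _ (by rw [pt_re]; exact exp_pos _))
          (h.d2 _ (by rw [pt_re]; exact exp_pos _))
      have h2 : HasDerivAt (fun τ : ℝ => exp (-τ)) (-exp (-τ)) τ := by
        simpa using ((hasDerivAt_id τ).neg).exp
      have h3 := (HasDerivAt.comp τ (h₂ := fun y => GG k F F1 x y) h1 h2).neg
      refine h3.congr_deriv ?_
      ring
    · exact (Continuous.mul (by fun_prop)
        (cont_dG hk h continuous_const (by fun_prop) (fun _ => exp_pos _))).intervalIntegrable _ _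
  · have : IntegrableOn (Function.uncurry fun τ x => exp (-τ) * dG k F F1 F2 x (exp (-τ)))
        (uIcc a b ×ˢ uIcc 0 (2 * π)) := by
      apply ContinuousOn.integrableOn_compact (isCompact_uIcc.prod isCompact_uIcc)
      exact hcont1.continuousOn
    exact this.mono_set (prod_mono uIoc_subset_uIcc uIoc_subset_uIcc)

end Pool.Agent.Helper73.EH.FLUX
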